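import Pool.Agent.H81.RZ.Pc
import Pool.Agent.H81.RZ.At
import Pool.Graph.R_pool_sql_team_seeded_1acbe0a2.Y691.TU.WmF
import Pool.Graph.R_pool_sql_team_seeded_1acbe0a2.Y691.TU.Sem

/-!
# Affine spaces

The properties of schemes which are used for the semisimplicity conjecture, for the monodromy-weight
conjecture and for the comparison of homological and numerical equivalence are true for the affine
spaces over the base field, also for one fixed weight (or codimension).
-/

set_option autoImplicit false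

open CategoryTheory CategoryTheory.Limits AlgebraicGeometry Pool.Agent.Y116.UV Pool.Agent.Z125.UN
  Pool.Agent.Q193.LT Pool.Agent.Q49.WU Pool.Agent.Y101.Th Pool.Agent.Y691.TU Pool.Agent.Q282.UK
  Pool.Agent.H81.RZ

universe v u w w'

namespace Pool.Agent.H51.TH

/-- A property which is inherited by affine bundles and true for the point is true for affine
spaces. -/
theorem spaces_bnd {R : Type} [CommRing R] {sep : Prop} {P : Sch R → Prop} (hP : Bnd sep P)
    (h0 : P (aff R R)) (n : ℕ) : P (aff R (MvPolynomial (Fin n) R)) :=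
  p_poly_fin hP n h0

section graded

variable {k : Type} [Field k] {C : Type u} [Category.{v} C] [Abelian C] {D : Graded k C}

/-- The pieces of all weights of the affine spaces. -/
theorem spaces_pieces (hC : Semisimple C) (hD : Y691.TU.IsGraded D) {Q : ℤ → C → Prop}
    (hQ : Stable D Q) (n : ℕ) : Pieces D Q (aff k (MvPolynomial (Fin n) k)) :=
  spaces_bnd (bnd_pieces hC hD hQ) (pieces_point hD hQ) n

/-- The pieces of one weight of the affine spaces. -/
theorem spaces_graded (hC : Semisimple C) (hD : Y691.TU.IsGraded D) {Q : ℤ → C → Prop}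
    (hQ : Stable D Q) (w : ℤ) (n : ℕ) : PieceAt D (Q w) w (aff k (MvPolynomial (Fin n) k)) :=
  fun j => spaces_pieces hC hD hQ n w j

/-- Semisimplicity for the affine spaces, in one weight (`MP_8f1292_ag`). -/
theorem spaces_8f {Ω G : Type} [Field Ω] [Group G] (F : Realisation.{v, u, w} C Ω G) [F.Additive]
    (hC : Semisimple C) (hD : Y691.TU.IsGraded D) (hF : TwistLattice F D.L)
    (unit : IsSemisimpleModule (MonoidAlgebra Ω G) (F.obj D.one)) (m : ℤ) (n : ℕ) :
    PieceAt D (fun A => IsSemisimpleModule (MonoidAlgebra Ω G) (F.obj A)) m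
      (aff k (MvPolynomial (Fin n) k)) :=
  spaces_graded hC hD (stable_semi F hF unit) m n

/-- Semisimplicity for the affine spaces, in all weights (`MP_8f1292_ag`). -/
theorem spaces_8f_all {Ω G : Type} [Field Ω] [Group G] (F : Realisation.{v, u, w} C Ω G)
    [F.Additive] (hC : Semisimple C) (hD : Y691.TU.IsGraded D) (hF : TwistLattice F D.L)
    (unit : IsSemisimpleModule (MonoidAlgebra Ω G) (F.obj D.one)) (n : ℕ) (m j : ℤ) :
    IsSemisimpleModule (MonoidAlgebra Ω G) (F.obj (D.H (aff k (MvPolynomial (Fin n) k)) m j)) :=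
  spaces_8f F hC hD hF unit m n j

variable {Ω W : Type} [Field Ω] [Algebra ℚ Ω] {R : LocalRealisation C Ω W} {deg : W → ℤ} {q : ℕ}

/-- The monodromy-weight property of the affine spaces, in one weight (`MP_cd312e_ag`). -/
theorem spaces_cd [R.F.Additive] (hC : Semisimple C) (hD : Y691.TU.IsGraded D)
    (hR : IsLocalRealisation R D.L deg q) (hq : 0 < q) (unit : MWAt R deg q 0 D.one) (m : ℤ)
    (n : ℕ) : PieceAt D (MWAt R deg q m) m (aff k (MvPolynomial (Fin n) k)) :=
  spaces_graded hC hD (stable_mw' hR hq unit) m n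

end graded

section unit

variable {Ω V W : Type} [Field Ω] [Algebra ℚ Ω] [AddCommGroup V] [Module Ω V]

/-- the eigenvalue one has the absolute value one -/
lemma isWeil_one : IsWeil (1 : Ω) 1 := by
  refine ⟨one_mem _, fun φ => ?_⟩
  have h1 : (⟨1, one_mem (algebraicClosure ℚ Ω)⟩ : algebraicClosure ℚ Ω) = 1 := rfl
  rw [h1, map_one, norm_one]

/-- The trivial representation has the monodromy-weight property of weight zero. -/
lemma mw_trivial (deg : W → ℤ) (q : ℕ) :
    MonodromyWeight (0 : V →ₗ[Ω] V) (fun _ : W => (LinearMap.id : V →ₗ[Ω] V)) deg q 0 := by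
  classical
  have hneg : ∀ s : ℤ, s < 0 → (if 0 ≤ s then (⊤ : Submodule Ω V) else ⊥) = ⊥ := fun s hs => by
    rw [if_neg (not_le.mpr hs)]
  have hpos : ∀ s : ℤ, 0 ≤ s → (if 0 ≤ s then (⊤ : Submodule Ω V) else ⊥) = ⊤ := fun s hs => by
    rw [if_pos hs]
  refine ⟨fun s => if 0 ≤ s then ⊤ else ⊥, ⟨?_, ⟨-1, by simp⟩, ⟨0, by simp⟩, ?_, ?_, ?_⟩, ?_⟩
  · intro a b hab
    by_cases ha : 0 ≤ a
    · change (if 0 ≤ a then (⊤ : Submodule Ω V) else ⊥) ≤ (if 0 ≤ b then ⊤ else ⊥)
      rw [hpos b (ha.trans hab)]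
      exact le_top
    · change (if 0 ≤ a then (⊤ : Submodule Ω V) else ⊥) ≤ (if 0 ≤ b then ⊤ else ⊥)
      rw [hneg a (not_le.mp ha)]
      exact bot_le
  · intro s x _
    rw [LinearMap.zero_apply]
    exact zero_mem _
  · intro s x _ hx
    change ((0 : V →ₗ[Ω] V) ^ s) x ∈ (if 0 ≤ -(s : ℤ) - 1 then (⊤ : Submodule Ω V) else ⊥) at hx
    rcases Nat.eq_zero_or_pos s with h | h
    · subst h
      rw [hneg _ (by simp), Submodule.mem_bot, pow_zero] at hx
      rw [show x = 0 from hx]
      exact zero_mem _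
    · rw [hpos _ (by omega)]
      trivial
  · intro s y hy
    change y ∈ (if 0 ≤ -(s : ℤ) then (⊤ : Submodule Ω V) else ⊥) at hy
    rcases Nat.eq_zero_or_pos s with h | h
    · subst h
      refine ⟨y, ?_, ?_⟩
      · rw [hpos _ (by simp)]
        trivial
      · rw [pow_zero]
        change y - y ∈ _
        rw [sub_self]
        exact zero_mem _
    · rw [hneg _ (by omega), Submodule.mem_bot] at hy
      refine ⟨0, zero_mem _, ?_⟩
      rw [hy, map_zero, sub_zero]
      exact zero_mem _
  · intro s g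
    refine ⟨fun x hx => hx, fun x hx hx' c hc => ?_⟩
    change x ∈ (if 0 ≤ s then (⊤ : Submodule Ω V) else ⊥) at hx
    change x ∉ (if 0 ≤ s - 1 then (⊤ : Submodule Ω V) else ⊥) at hx'
    change x - c • x ∈ (if 0 ≤ s - 1 then (⊤ : Submodule Ω V) else ⊥) at hc
    by_cases hs : s = 0
    · subst hs
      rw [hneg _ (by norm_num), Submodule.mem_bot] at hx' hc
      have h1 : (1 - c) • x = 0 := by rw [sub_smul, one_smul]; exact hc
      rcases smul_eq_zero.mp h1 with h2 | h2
      · rw [← sub_eq_zero.mp h2]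
        simpa using isWeil_one
      · exact absurd h2 hx'
    · rcases lt_or_gt_of_ne hs with h | h
      · rw [hneg _ h, Submodule.mem_bot] at hx
        exact absurd (by rw [hx]; exact zero_mem _) hx'
      · rw [hpos _ (by omega)] at hx'
        exact absurd trivial hx'

/-- The unit motive has the monodromy-weight property of weight zero, if its realisation is trivial
(`MP_cd312e_ag`). -/
lemma unit_cd {C : Type u} [Category.{v} C] {R : LocalRealisation C Ω W} {deg : W → ℤ} {q : ℕ}
    {A : C} (hN : R.N.app A = 0) (hρ : ∀ g, (R.ρ g).app A = 𝟙 _) : MWAt R deg q 0 A := by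
  have h1 : (R.N.app A).hom = 0 := by rw [hN]; rfl
  have h2 : (fun g => ((R.ρ g).app A).hom) = fun _ => LinearMap.id := by
    funext g
    rw [hρ g]
    rfl
  unfold MWAt
  rw [h1, h2]
  exact mw_trivial deg q

end unit

/-- Homological and numerical equivalence in one codimension, for the affine spaces
(`MP_0c8446_ag`). -/
theorem spaces_0c {F : Type} [Field F] {C : PairData.{w} F (ℤ × ℤ) ℚ} (h : IsWeightPair C)
    (point : BijAll C (aff F F)) (N : ℤ) (n : ℕ) :
    BijAt C Prod.fst N (aff F (MvPolynomial (Fin n) F)) := fun j _ =>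
  spaces_bnd (bnd_pair h point) point n j

/-- Homological and numerical equivalence in all codimensions, for the affine spaces
(`MP_0c8446_ag`). -/
theorem spaces_0c_all {F : Type} [Field F] {C : PairData.{w} F (ℤ × ℤ) ℚ} (h : IsWeightPair C)
    (point : BijAll C (aff F F)) (n : ℕ) : BijAll C (aff F (MvPolynomial (Fin n) F)) :=
  spaces_bnd (bnd_pair h point) point n

section rank

variable {R : Type} [CommRing R] {sep : Prop} {P : Sch R → Prop}

/-- The affine spaces are the schemes of matrices with one row. -/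
theorem spaces_of_rank (hP : Clo sep P) {r : ℕ} (hr : 1 ≤ r) (h : OnRank r P) (n : ℕ) :
    P (aff R (MvPolynomial (Fin n) R)) := by
  have h1 := h 1 n ∅
  refine H81.RZ.clo_alg hP ?_ h1
  have h2 : Ideal.span (rkEqs R r ((∅ : Finset (Fin 1 × Fin n)) : Set (Fin 1 × Fin n))) = ⊥ := by
    rw [Ideal.span_eq_bot]
    rintro g (⟨ρ, γ, rfl⟩ | ⟨e, he, -⟩)
    · have h3 : (⟨0, by omega⟩ : Fin (r + 1)) ≠ ⟨1, by omega⟩ := by simp
      refine Matrix.det_zero_of_row_eq h3 ?_
      funext b
      change MvPolynomial.X (ρ _, γ b) = MvPolynomial.X (ρ _, γ b)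
      rw [Subsingleton.elim (ρ ⟨0, by omega⟩) (ρ ⟨1, by omega⟩)]
    · exact absurd he (by simp)
  exact ((Ideal.quotientEquivAlgOfEq R h2).trans (AlgEquiv.quotientBot R _)).trans
    (MvPolynomial.renameEquiv R (Equiv.uniqueProd (Fin n) (Fin 1)))

end rank

end Pool.Agent.H51.TH
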